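import Mathlib
import Pool.Agent.Lib.helper23.HMP

set_option autoImplicit false

namespace Pool.Agent.Results.MP_a67be6_gt.Counter

open Set

def CD {X : Type} [TopologicalSpace X] (A : Set X) : Prop := IsClosed A ∧ DiscreteTopology A

def Weak (X : Type) [TopologicalSpace X] : Prop :=
  ∃ E : ℕ → Set X, (∀ n, CD (E n)) ∧ Dense (⋃ n, E n)

def Strong (X : Type) [TopologicalSpace X] : Prop :=
  ∀ D : ℕ → Set X, (∀ n, Dense (D n)) →
    ∃ E : ℕ → Set X, (∀ n, E n ⊆ D n ∧ CD (E n)) ∧ Dense (⋃ n, E n)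

theorem result : ∃ (I : Type) (D : I → Type) (_ : ∀ i, Nonempty (D i))
    (_ : ∀ i, TopologicalSpace (D i)) (_ : ∀ i, DiscreteTopology (D i)),
    Weak (∀ i, D i) ∧ ¬ Strong (∀ i, D i) := by
  classical
  refine ⟨ℕ → Bool, fun _ => Bool, inferInstance, inferInstance, inferInstance, ?_, fun h => ?_⟩
  · obtain ⟨S, h1, h2⟩ := Pool.Agent.Lib.helper23.exists_dense Bool
    obtain ⟨s, rfl⟩ := h1.exists_eq_range h2.nonempty
    exact ⟨fun n => {s n}, fun n => ⟨isClosed_singleton, inferInstance⟩,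
      by rwa [iUnion_singleton_eq_range]⟩
  obtain ⟨E, h1, h2⟩ := h (fun _ => {f | {i | f i = true}.Finite}) fun _ v =>
    mem_closure_iff_nhds.2 fun U hU => by
      rw [nhds_pi] at hU
      obtain ⟨J, h3, t, h4, h5⟩ := Filter.mem_pi.1 hU
      refine ⟨fun i => if i ∈ J then v i else false, h5 fun i hi => ?_, h3.subset fun i hi => ?_⟩
      · simpa [hi] using mem_of_mem_nhds (h4 i)
      · by_contra h6
        simp [h6] at hi
  have h3 : (⋃ n, ⋃ f ∈ E n, {i | f i = true}).Countable := countable_iUnion fun n =>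
    ((h1 n).2.1.isCompact.finite ⟨(h1 n).2.2⟩).countable.biUnion fun f hf =>
      ((h1 n).1 hf).countable
  have := Pool.Agent.Lib.helper23.uncountable_cantor
  obtain ⟨i, hi⟩ : ∃ i, i ∉ ⋃ n, ⋃ f ∈ E n, {i | f i = true} := by
    by_contra! h4
    exact not_countable_univ (h3.mono fun i _ => h4 i)
  obtain ⟨f, h4, h5⟩ := h2.exists_mem_open (U := (fun f : (ℕ → Bool) → Bool => f i) ⁻¹' {true})
    ((isOpen_discrete _).preimage (continuous_apply i)) ⟨fun _ => true, rfl⟩
  obtain ⟨n, hn⟩ := mem_iUnion.1 h4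
  exact hi (mem_iUnion.2 ⟨n, mem_biUnion hn h5⟩)

end Pool.Agent.Results.MP_a67be6_gt.Counter
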